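import Pool.Agent.Helper6.NX.GoalsE

/-! Packet NX-F2 (MP_75608d_al). -/

set_option linter.unusedVariables false

namespace Pool.Agent.Helper79.NX

open Matrix Equiv Filter Topology Pool.Agent.Helper15.An Pool.Agent.Helper6.NX
open scoped ComplexOrder

theorem norm_trace_le {n D : ℕ} {ρ : Perm (Fin n) →* Matrix (Fin D) (Fin D) ℂ}
    (hu : ∀ g, (ρ g)ᴴ * ρ g = 1) (g : Perm (Fin n)) : ‖Matrix.trace (ρ g)‖ ≤ D := by
  have hent : ∀ i, ‖ρ g i i‖ ≤ 1 := by
    intro i
    have h2 := congrFun (congrFun (hu g) i) i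
    rw [Matrix.mul_apply, Matrix.one_apply_eq] at h2
    have h3 : ∑ j, ‖ρ g j i‖ ^ 2 = 1 := by
      have h4 : ∑ j, (ρ g)ᴴ i j * ρ g j i = ((∑ j, ‖ρ g j i‖ ^ 2 : ℝ) : ℂ) := by
        push_cast
        refine Finset.sum_congr rfl fun j _ => ?_
        rw [conjTranspose_apply, Complex.star_def, ← Complex.normSq_eq_conj_mul_self,
          Complex.normSq_eq_norm_sq]
        push_cast
        rfl
      rw [h4] at h2
      exact_mod_cast h2
    have h5 : ‖ρ g i i‖ ^ 2 ≤ 1 := by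
      rw [← h3]
      exact Finset.single_le_sum (f := fun j => ‖ρ g j i‖ ^ 2) (fun j _ => by positivity)
        (Finset.mem_univ i)
    nlinarith [norm_nonneg (ρ g i i)]
  unfold Matrix.trace
  refine (norm_sum_le _ _).trans ?_
  calc ∑ i, ‖(ρ g).diag i‖ ≤ ∑ _i : Fin D, (1 : ℝ) := Finset.sum_le_sum fun i _ => hent i
    _ = D := by simp

/-- the real part of the trace of `wop` -/
theorem re_trace_wop {n D : ℕ} (ρ : Perm (Fin n) →* Matrix (Fin D) (Fin D) ℂ)
    (κ : Perm (Fin n) → ℝ) : (trace (wop ρ κ)).re = ∑ g, κ g * (trace (ρ g)).re := by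
  unfold wop
  rw [trace_sum, Complex.re_sum]
  refine Finset.sum_congr rfl fun g _ => ?_
  rw [trace_smul, Complex.real_smul, Complex.re_ofReal_mul]

/-- binomial coefficients, Chernoff style -/
theorem choose_le (n m : ℕ) (x : ℝ) (hx : 0 < x) :
    (n.choose m : ℝ) * x ^ m ≤ Real.exp (x * n) := by
  have h1 : (n.choose m : ℝ) * x ^ m ≤ (1 + x) ^ n := by
    by_cases hm : m ≤ n
    · rw [add_comm, add_pow]
      have h2 : (n.choose m : ℝ) * x ^ m = x ^ m * 1 ^ (n - m) * (n.choose m : ℝ) := by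
        rw [one_pow]; ring
      rw [h2]
      exact Finset.single_le_sum (f := fun m => x ^ m * 1 ^ (n - m) * (n.choose m : ℝ))
        (fun j _ => by positivity) (Finset.mem_range.2 (by omega))
    · rw [Nat.choose_eq_zero_of_lt (by omega)]
      simp only [Nat.cast_zero, zero_mul]
      positivity
  refine h1.trans ?_
  have h3 : (1 + x) ≤ Real.exp x := by linarith [Real.add_one_le_exp x]
  calc (1 + x) ^ n ≤ (Real.exp x) ^ n := pow_le_pow_left₀ (by linarith) h3 n
    _ = Real.exp (x * n) := by rw [← Real.exp_nat_mul, mul_comm]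

/-- the numerical bound for the elements with few fixed points -/
theorem num1 (c : ℝ) (hc : 0 < c) (hc1 : c ≤ 1 / 32) :
    ∃ c' : ℝ, 0 < c' ∧ c' ≤ 1 / 480 ∧ ∀ n : ℕ,
      2 * (n.choose (12 * ⌊c' * n⌋₊) : ℝ) * (7 / 8) ^ (⌊c * n⌋₊ + 1) + 1 / 2 ^ ⌊c' * n⌋₊ ≤
        4 * Real.exp (-(min (3 * c / 40) (c' / 2) * n)) := by
  set x : ℝ := c / 40 with hx
  have hx0 : 0 < x := by positivity
  have hx1 : x < 1 := by rw [hx]; linarith
  have hlog : Real.log x < 0 := Real.log_neg hx0 hx1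
  set L : ℝ := -Real.log x with hL
  have hL0 : 0 < L := by linarith
  refine ⟨min (1 / 480) (c / (480 * L)), by positivity, min_le_left _ _, fun n => ?_⟩
  set c' : ℝ := min (1 / 480) (c / (480 * L)) with hc'
  have hc'0 : 0 < c' := by positivity
  have hc'1 : c' * (12 * L) ≤ c / 40 := by
    have h1 : c' ≤ c / (480 * L) := min_le_right _ _
    calc c' * (12 * L) ≤ c / (480 * L) * (12 * L) := mul_le_mul_of_nonneg_right h1 (by positivity)
      _ = c / 40 := by field_simp; ring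
  set J : ℕ := ⌊c' * n⌋₊ with hJ
  have hn0 : (0 : ℝ) ≤ n := Nat.cast_nonneg n
  have hJ1 : (J : ℝ) ≤ c' * n := Nat.floor_le (by positivity)
  have hJ2 : c' * n < J + 1 := Nat.lt_floor_add_one _
  -- the binomial coefficient
  have hb : (n.choose (12 * J) : ℝ) ≤ Real.exp (c * n / 20) := by
    have h1 := choose_le n (12 * J) x hx0
    have h2 : x ^ (12 * J) = Real.exp (-(12 * J * L)) := by
      rw [hL]
      have h3 : x = Real.exp (Real.log x) := (Real.exp_log hx0).symm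
      calc x ^ (12 * J) = (Real.exp (Real.log x)) ^ (12 * J) := by rw [← h3]
        _ = Real.exp (((12 * J : ℕ) : ℝ) * Real.log x) := by rw [← Real.exp_nat_mul]
        _ = Real.exp (-(12 * J * -Real.log x)) := by push_cast; ring_nf
    rw [h2] at h1
    have h4 : (n.choose (12 * J) : ℝ) = (n.choose (12 * J) : ℝ) * Real.exp (-(12 * J * L)) *
        Real.exp (12 * J * L) := by
      rw [mul_assoc, ← Real.exp_add, neg_add_cancel, Real.exp_zero, mul_one]
    rw [h4]
    calc (n.choose (12 * J) : ℝ) * Real.exp (-(12 * J * L)) * Real.exp (12 * J * L) ≤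
        Real.exp (x * n) * Real.exp (12 * J * L) :=
          mul_le_mul_of_nonneg_right h1 (Real.exp_pos _).le
      _ = Real.exp (x * n + 12 * J * L) := by rw [← Real.exp_add]
      _ ≤ Real.exp (c * n / 20) := by
        apply Real.exp_le_exp.2
        have h5 : 12 * (J : ℝ) * L ≤ c / 40 * n := by
          calc 12 * (J : ℝ) * L = J * (12 * L) := by ring
            _ ≤ c' * n * (12 * L) := mul_le_mul_of_nonneg_right hJ1 (by positivity)
            _ = c' * (12 * L) * n := by ring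
            _ ≤ c / 40 * n := mul_le_mul_of_nonneg_right hc'1 hn0
        rw [hx]
        linarith
  -- the power of 7/8
  have hp : ((7 : ℝ) / 8) ^ (⌊c * n⌋₊ + 1) ≤ Real.exp (-(c * n / 8)) := by
    have h1 : (7 : ℝ) / 8 ≤ Real.exp (-(1 / 8)) := by
      have := Real.add_one_le_exp (-(1 / 8 : ℝ))
      linarith
    calc ((7 : ℝ) / 8) ^ (⌊c * n⌋₊ + 1) ≤ (Real.exp (-(1 / 8))) ^ (⌊c * n⌋₊ + 1) :=
          pow_le_pow_left₀ (by norm_num) h1 _
      _ = Real.exp (((⌊c * n⌋₊ + 1 : ℕ) : ℝ) * (-(1 / 8))) := by rw [← Real.exp_nat_mul]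
      _ ≤ Real.exp (-(c * n / 8)) := by
        apply Real.exp_le_exp.2
        have h2 : c * n < (⌊c * n⌋₊ : ℝ) + 1 := Nat.lt_floor_add_one _
        push_cast
        linarith
  -- the power of 2
  have h2 : (1 : ℝ) / 2 ^ J ≤ 2 * Real.exp (-(c' / 2 * n)) := by
    have h1 : (1 : ℝ) / 2 ^ J = Real.exp (-(J * Real.log 2)) := by
      rw [Real.exp_neg, Real.exp_nat_mul, Real.exp_log (by norm_num), one_div]
    rw [h1]
    have h3 : (2 : ℝ) = Real.exp (Real.log 2) := (Real.exp_log (by norm_num)).symm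
    have h4 : 2 * Real.exp (-(c' / 2 * n)) = Real.exp (Real.log 2 + -(c' / 2 * n)) := by
      rw [Real.exp_add, Real.exp_log (by norm_num)]
    rw [h4]
    apply Real.exp_le_exp.2
    have h5 : (0.6931471803 : ℝ) < Real.log 2 := Real.log_two_gt_d9
    have h6 : 0 ≤ c' * n := by positivity
    have h7 : (c' * n - 1) * Real.log 2 ≤ J * Real.log 2 :=
      mul_le_mul_of_nonneg_right (by linarith) (by linarith)
    nlinarith
  set m : ℝ := min (3 * c / 40) (c' / 2) with hm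
  have hm1 : m * n ≤ 3 * c / 40 * n := mul_le_mul_of_nonneg_right (min_le_left _ _) hn0
  have hm2 : m * n ≤ c' / 2 * n := mul_le_mul_of_nonneg_right (min_le_right _ _) hn0
  have h3 : 2 * (n.choose (12 * J) : ℝ) * (7 / 8) ^ (⌊c * n⌋₊ + 1) ≤
      2 * Real.exp (-(m * n)) := by
    calc 2 * (n.choose (12 * J) : ℝ) * (7 / 8) ^ (⌊c * n⌋₊ + 1) ≤
        2 * Real.exp (c * n / 20) * Real.exp (-(c * n / 8)) :=
          mul_le_mul (mul_le_mul_of_nonneg_left hb (by norm_num)) hp (by positivity)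
            (by positivity)
      _ = 2 * Real.exp (c * n / 20 + -(c * n / 8)) := by rw [Real.exp_add, mul_assoc]
      _ ≤ 2 * Real.exp (-(m * n)) := by
        apply mul_le_mul_of_nonneg_left _ (by norm_num)
        apply Real.exp_le_exp.2
        linarith
  have h4 : 2 * Real.exp (-(c' / 2 * n)) ≤ 2 * Real.exp (-(m * n)) := by
    apply mul_le_mul_of_nonneg_left _ (by norm_num)
    apply Real.exp_le_exp.2
    linarith
  linarith

/-- the probability of many fixed points -/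
theorem prob_le (n : ℕ) (hn : 40 ≤ n) (ξ : ℝ) (hξ : 0 < ξ) (hξ1 : ξ ≤ 1)
    (hbig : 20 * Real.exp 40 ≤ (n : ℝ) ^ ξ) (κ : Perm (Fin n) → ℝ) (hκ : IsLaw κ)
    (hmom : ∀ f : ℕ, f ≤ n → n ≤ 40 * f → mom κ f ≤ (n : ℝ) ^ ((1 - ξ) * f)) :
    ∑ g ∈ Finset.univ.filter (fun g : Perm (Fin n) => ¬ 10 * fixc g < n), κ g ≤
      Real.exp (-(n : ℝ)) := by
  set f : ℕ := n / 20 with hf
  have hf1 : f ≤ n := Nat.div_le_self _ _
  have hf2 : n ≤ 40 * f := by omega
  have hf3 : 20 * f ≤ n := by omega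
  have hn0 : (0 : ℝ) < n := by exact_mod_cast (by omega : 0 < n)
  have h1 := hmom f hf1 hf2
  set P : ℝ := ∑ g ∈ Finset.univ.filter (fun g : Perm (Fin n) => ¬ 10 * fixc g < n), κ g with hP
  have h2 : P * ((n : ℝ) / 20) ^ f ≤ mom κ f := by
    rw [hP, Finset.sum_mul]
    unfold mom
    refine (Finset.sum_le_sum (fun g hg => ?_)).trans
      (Finset.sum_le_sum_of_subset_of_nonneg (Finset.filter_subset _ _)
        (fun g _ _ => mul_nonneg (hκ.1 g) (Nat.cast_nonneg _)))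
    apply mul_le_mul_of_nonneg_left _ (hκ.1 g)
    have hg1 : n ≤ 10 * fixc g := by
      have := (Finset.mem_filter.1 hg).2
      omega
    have h3 : (fixc g + 1 - f) ^ f ≤ (fixc g).descFactorial f :=
      Nat.pow_sub_le_descFactorial _ _
    have h4 : ((n : ℝ) / 20) ≤ ((fixc g + 1 - f : ℕ) : ℝ) := by
      rw [div_le_iff₀ (by norm_num)]
      have h5 : n ≤ (fixc g + 1 - f) * 20 := by omega
      exact_mod_cast h5
    calc ((n : ℝ) / 20) ^ f ≤ ((fixc g + 1 - f : ℕ) : ℝ) ^ f :=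
          pow_le_pow_left₀ (by positivity) h4 _
      _ ≤ ((fixc g).descFactorial f : ℝ) := by exact_mod_cast h3
  have h3 : P * ((n : ℝ) / 20) ^ f ≤ (n : ℝ) ^ ((1 - ξ) * f) := h2.trans h1
  have h4 : (n : ℝ) ^ ((1 - ξ) * f) = ((n : ℝ) / (n : ℝ) ^ ξ) ^ f := by
    rw [Real.rpow_mul hn0.le, Real.rpow_natCast, Real.rpow_sub hn0, Real.rpow_one]
  have h5 : P ≤ (20 / (n : ℝ) ^ ξ) ^ f := by
    have h6 : P = P * ((n : ℝ) / 20) ^ f * (20 / (n : ℝ)) ^ f := by
      rw [mul_assoc, ← mul_pow]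
      have : (n : ℝ) / 20 * (20 / n) = 1 := by field_simp
      rw [this, one_pow, mul_one]
    rw [h6]
    calc P * ((n : ℝ) / 20) ^ f * (20 / (n : ℝ)) ^ f ≤
        ((n : ℝ) / (n : ℝ) ^ ξ) ^ f * (20 / (n : ℝ)) ^ f := by
          rw [← h4]
          exact mul_le_mul_of_nonneg_right h3 (by positivity)
      _ = (20 / (n : ℝ) ^ ξ) ^ f := by
        rw [← mul_pow]
        congr 1
        have hpos : (0 : ℝ) < (n : ℝ) ^ ξ := Real.rpow_pos_of_pos hn0 _
        field_simp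
  refine h5.trans ?_
  have hpos : (0 : ℝ) < (n : ℝ) ^ ξ := Real.rpow_pos_of_pos hn0 _
  have h6 : 20 / (n : ℝ) ^ ξ ≤ Real.exp (-40) := by
    rw [div_le_iff₀ hpos]
    calc (20 : ℝ) = Real.exp (-40) * (20 * Real.exp 40) := by
          rw [mul_comm, mul_assoc, ← Real.exp_add]; norm_num
      _ ≤ Real.exp (-40) * (n : ℝ) ^ ξ := mul_le_mul_of_nonneg_left hbig (Real.exp_pos _).le
  calc (20 / (n : ℝ) ^ ξ) ^ f ≤ (Real.exp (-40)) ^ f := pow_le_pow_left₀ (by positivity) h6 _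
    _ = Real.exp ((f : ℝ) * (-40)) := by rw [← Real.exp_nat_mul]
    _ ≤ Real.exp (-(n : ℝ)) := by
      apply Real.exp_le_exp.2
      have : (n : ℝ) ≤ 40 * f := by exact_mod_cast hf2
      linarith

/-- **F2** -/
theorem thmF2 (hcb : Pool.Agent.Helper6.NX.S_CB) : Pool.Agent.Helper6.NX.S_F2 := by
  intro c hc hc1
  obtain ⟨c', hc'0, hc'1, hnum⟩ := num1 c hc hc1
  set m : ℝ := min (3 * c / 40) (c' / 2) with hm
  have hm0 : 0 < m := by rw [hm]; positivity
  have hm1 : m ≤ 1 := by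
    have : m ≤ 3 * c / 40 := min_le_left _ _
    linarith
  refine ⟨m / 2, by positivity, fun ξ hξ hξ1 => ?_⟩
  have hlim : Tendsto (fun n : ℕ => (n : ℝ) ^ ξ) atTop atTop :=
    (tendsto_rpow_atTop hξ).comp tendsto_natCast_atTop_atTop
  have hlim2 : Tendsto (fun n : ℕ => m / 2 * (n : ℝ)) atTop atTop :=
    tendsto_natCast_atTop_atTop.const_mul_atTop (by positivity)
  filter_upwards [eventually_ge_atTop 64, hlim.eventually_ge_atTop (20 * Real.exp 40),
    hlim2.eventually_ge_atTop (Real.log 5)] with n hn hbig hlog κ hκ hmom D ρ hu hno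
  have hn0 : (0 : ℝ) < n := by exact_mod_cast (by omega : 0 < n)
  have hr : 16 * (⌊c * n⌋₊ + 1) ≤ n := by
    have h1 : (⌊c * n⌋₊ : ℝ) ≤ c * n := Nat.floor_le (by positivity)
    have h2 : c * (n : ℝ) ≤ 1 / 32 * n := mul_le_mul_of_nonneg_right hc1 hn0.le
    have h3 : (64 : ℝ) ≤ n := by exact_mod_cast hn
    have h4 : (16 * (⌊c * n⌋₊ + 1) : ℝ) ≤ n := by linarith
    exact_mod_cast h4
  have hJ : 20 * (12 * ⌊c' * n⌋₊ + 1) ≤ n := by
    have h1 : (⌊c' * n⌋₊ : ℝ) ≤ c' * n := Nat.floor_le (by positivity)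
    have h2 : c' * (n : ℝ) ≤ 1 / 480 * n := mul_le_mul_of_nonneg_right hc'1 hn0.le
    have h3 : (64 : ℝ) ≤ n := by exact_mod_cast hn
    have h4 : (20 * (12 * ⌊c' * n⌋₊ + 1) : ℝ) ≤ n := by linarith
    exact_mod_cast h4
  have hchar : ∀ g : Perm (Fin n), 10 * fixc g < n →
      (trace (ρ g)).re ≤ 4 * Real.exp (-(m * n)) * D := by
    intro g hg
    have h1 := hcb n D ρ ⌊c * n⌋₊ ⌊c' * n⌋₊ hu hno hn hr hJ g hg
    calc (trace (ρ g)).re ≤ ‖trace (ρ g)‖ := Complex.re_le_norm _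
      _ ≤ _ := h1
      _ ≤ 4 * Real.exp (-(m * n)) * D := mul_le_mul_of_nonneg_right (hnum n) (Nat.cast_nonneg _)
  have hprob := prob_le n (by omega) ξ hξ hξ1 hbig κ hκ hmom
  rw [re_trace_wop, ← Finset.sum_filter_add_sum_filter_not Finset.univ
    (fun g : Perm (Fin n) => 10 * fixc g < n)]
  have hD : (0 : ℝ) ≤ D := Nat.cast_nonneg _
  have hA : ∑ g ∈ Finset.univ.filter (fun g : Perm (Fin n) => 10 * fixc g < n),
      κ g * (trace (ρ g)).re ≤ 4 * Real.exp (-(m * n)) * D := by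
    calc ∑ g ∈ Finset.univ.filter (fun g : Perm (Fin n) => 10 * fixc g < n),
        κ g * (trace (ρ g)).re ≤
        ∑ g ∈ Finset.univ.filter (fun g : Perm (Fin n) => 10 * fixc g < n),
          κ g * (4 * Real.exp (-(m * n)) * D) :=
          Finset.sum_le_sum fun g hg =>
            mul_le_mul_of_nonneg_left (hchar g (Finset.mem_filter.1 hg).2) (hκ.1 g)
      _ ≤ ∑ g : Perm (Fin n), κ g * (4 * Real.exp (-(m * n)) * D) :=
          Finset.sum_le_sum_of_subset_of_nonneg (Finset.filter_subset _ _)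
            (fun g _ _ => mul_nonneg (hκ.1 g) (by positivity))
      _ = 4 * Real.exp (-(m * n)) * D := by rw [← Finset.sum_mul, hκ.2, one_mul]
  have hB : ∑ g ∈ Finset.univ.filter (fun g : Perm (Fin n) => ¬ 10 * fixc g < n),
      κ g * (trace (ρ g)).re ≤ Real.exp (-(n : ℝ)) * D := by
    calc ∑ g ∈ Finset.univ.filter (fun g : Perm (Fin n) => ¬ 10 * fixc g < n),
        κ g * (trace (ρ g)).re ≤
        ∑ g ∈ Finset.univ.filter (fun g : Perm (Fin n) => ¬ 10 * fixc g < n), κ g * D :=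
          Finset.sum_le_sum fun g _ =>
            mul_le_mul_of_nonneg_left ((Complex.re_le_norm _).trans (norm_trace_le hu g)) (hκ.1 g)
      _ = (∑ g ∈ Finset.univ.filter (fun g : Perm (Fin n) => ¬ 10 * fixc g < n), κ g) * D := by
          rw [Finset.sum_mul]
      _ ≤ Real.exp (-(n : ℝ)) * D := mul_le_mul_of_nonneg_right hprob hD
  have hC : 4 * Real.exp (-(m * n)) + Real.exp (-(n : ℝ)) ≤ Real.exp (-(m / 2 * n)) := by
    have h1 : Real.exp (-(n : ℝ)) ≤ Real.exp (-(m * n)) := by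
      apply Real.exp_le_exp.2
      have : m * (n : ℝ) ≤ 1 * n := mul_le_mul_of_nonneg_right hm1 hn0.le
      linarith
    have h2 : Real.exp (-(m / 2 * n)) = Real.exp (m / 2 * n) * Real.exp (-(m * n)) := by
      rw [← Real.exp_add]
      congr 1
      ring
    have h3 : (5 : ℝ) ≤ Real.exp (m / 2 * n) := by
      calc (5 : ℝ) = Real.exp (Real.log 5) := (Real.exp_log (by norm_num)).symm
        _ ≤ _ := Real.exp_le_exp.2 hlog
    have h4 : 5 * Real.exp (-(m * n)) ≤ Real.exp (m / 2 * n) * Real.exp (-(m * n)) :=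
      mul_le_mul_of_nonneg_right h3 (Real.exp_pos _).le
    rw [h2]
    linarith
  calc _ ≤ 4 * Real.exp (-(m * n)) * D + Real.exp (-(n : ℝ)) * D := add_le_add hA hB
    _ = (4 * Real.exp (-(m * n)) + Real.exp (-(n : ℝ))) * D := by ring
    _ ≤ Real.exp (-(m / 2 * n)) * D := mul_le_mul_of_nonneg_right hC hD

end Pool.Agent.Helper79.NX
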